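import Pool.Agent.helper10.OM.SpecH

/-!
# Project OM (MP_bf63dc_nt), row HDV: divisors of a squarefree number
-/

set_option autoImplicit false

namespace Pool.Agent.OM

open Finset Real Pool.Agent.AT Pool.Agent.helper85.FC

theorem HDV_card (n : ℕ) (hn : Squarefree n) : #n.divisors = 2 ^ #n.primeFactors := by
  rw [Nat.card_divisors hn.ne_zero, Finset.prod_congr rfl (g := fun _ => 2), Finset.prod_const]
  intro p hp
  have hp' := Nat.prime_of_mem_primeFactors hp
  have h1 : n.factorization p ≤ 1 := (Nat.squarefree_iff_factorization_le_one hn.ne_zero).1 hn p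
  have h2 : 0 < n.factorization p := hp'.factorization_pos_of_dvd hn.ne_zero (Nat.dvd_of_mem_primeFactors hp)
  omega

theorem HDV_prod (n d : ℕ) (hn : Squarefree n) (hd : d ∣ n) :
    (d : ℚ) = ∏ p : n.primeFactors, (if (p : ℕ) ∣ d then ((p : ℕ) : ℚ) else 1) := by
  have h1 : ∏ p ∈ d.primeFactors, p = d := Nat.prod_primeFactors_of_squarefree (hn.squarefree_of_dvd hd)
  have h2 : d.primeFactors = n.primeFactors.filter (fun p => p ∣ d) := by
    ext p
    rw [Finset.mem_filter, Nat.mem_primeFactors, Nat.mem_primeFactors]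
    constructor
    · rintro ⟨a, b, c⟩
      exact ⟨⟨a, b.trans hd, hn.ne_zero⟩, b⟩
    · rintro ⟨⟨a, b, c⟩, e⟩
      exact ⟨a, e, fun h => c (by rw [h] at hd; exact Nat.eq_zero_of_zero_dvd hd)⟩
  rw [h2, Finset.prod_filter] at h1
  rw [Finset.prod_coe_sort n.primeFactors (fun p : ℕ => if p ∣ d then (p : ℚ) else 1)]
  nth_rewrite 1 [← h1]
  rw [Nat.cast_prod]
  refine Finset.prod_congr rfl fun p _ => ?_
  split_ifs <;> simp

/-- the quotient given by a function -/
noncomputable def HDV_f (n : ℕ) (f : n.primeFactors → Fin 3) : ℚ :=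
  ∏ p : n.primeFactors, (if f p = 0 then ((p : ℕ) : ℚ)⁻¹ else if f p = 1 then 1 else ((p : ℕ) : ℚ))

theorem HDV_QF (n : ℕ) (hn : Squarefree n) : #(QF n.divisors) ≤ 3 ^ #n.primeFactors := by
  have h1 : QF n.divisors ⊆ (Finset.univ : Finset (n.primeFactors → Fin 3)).image (HDV_f n) := by
    intro x hx
    unfold QF at hx
    rw [Finset.mem_image] at hx
    obtain ⟨⟨d, d'⟩, hp, rfl⟩ := hx
    rw [Finset.mem_product] at hp
    have hd := Nat.dvd_of_mem_divisors hp.1
    have hd' := Nat.dvd_of_mem_divisors hp.2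
    rw [Finset.mem_image]
    refine ⟨fun p => if (p : ℕ) ∣ d then (if (p : ℕ) ∣ d' then 1 else 2) else (if (p : ℕ) ∣ d' then 0 else 1),
      Finset.mem_univ _, ?_⟩
    show HDV_f n _ = (d : ℚ) / (d' : ℚ)
    rw [HDV_prod n d hn hd, HDV_prod n d' hn hd', ← Finset.prod_div_distrib]
    unfold HDV_f
    refine Finset.prod_congr rfl fun p _ => ?_
    have hp0 : ((p : ℕ) : ℚ) ≠ 0 := by
      have := (Nat.prime_of_mem_primeFactors p.2).ne_zero
      exact_mod_cast this
    by_cases a : (p : ℕ) ∣ d <;> by_cases b : (p : ℕ) ∣ d' <;> simp [a, b, hp0]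
  refine le_trans (Finset.card_le_card h1) (le_trans Finset.card_image_le ?_)
  rw [Finset.card_univ, Fintype.card_fun, Fintype.card_fin, Fintype.card_coe]

theorem HDV : HDV_stmt := by
  intro hOMG ε hε
  obtain ⟨η, hη, h⟩ := hOMG ε hε
  obtain ⟨k, hk⟩ := exists_pow_lt_of_lt_one hη (show (3 / 4 : ℝ) < 1 by norm_num)
  refine ⟨k, fun n hn hkn => ?_⟩
  refine h n.divisors (fun s hs => Nat.pos_of_mem_divisors hs) ?_
  have h1 : (#(QF n.divisors) : ℝ) ≤ 3 ^ #n.primeFactors := by
    exact_mod_cast HDV_QF n hn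
  have h2 : ((#n.divisors : ℕ) : ℝ) ^ 2 = 4 ^ #n.primeFactors := by
    rw [HDV_card n hn]
    push_cast
    rw [← pow_mul, mul_comm, pow_mul]
    norm_num
  have h3 : (3 / 4 : ℝ) ^ #n.primeFactors ≤ (3 / 4 : ℝ) ^ k :=
    pow_le_pow_of_le_one (by norm_num) (by norm_num) hkn
  have h4 : (3 : ℝ) ^ #n.primeFactors = (3 / 4 : ℝ) ^ #n.primeFactors * 4 ^ #n.primeFactors := by
    rw [← mul_pow]
    norm_num
  rw [h2]
  refine le_trans h1 ?_
  rw [h4]
  apply mul_le_mul_of_nonneg_right _ (by positivity)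
  linarith

end Pool.Agent.OM
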